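import Pool.Agent.R577.Reset.Final
import Pool.Agent.H622R2.CoNP

/-!
# The recognition of reset Mealy automata is PSPACE-complete

`Mealy`, `Mealy.run` (`q · u`), `Mealy.output` (`q ∘ u`), `Mealy.Sync` (synchronizing words),
`IsReset` and the encoding of Mealy automata by their tables are defined in
`Pool.Agent.R577.Reset.Defs`; polynomial space in `Pool.Agent.H623R2.PS.Defs`; `NP`, `P` and
polynomial-time many-one reductions (Turing machines of Mathlib) in `Pool.Agent.NPC`.
-/

namespace Pool.Agent.Results.MP_5adc07_lc.PSPACEComplete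

open Pool.Agent.NPC Pool.Agent.H623R2.PS Pool.Agent.R577.Reset

/-- RESET (given a Mealy automaton by its tables, is it reset?) is `PSPACE`-complete under
polynomial-time many-one reductions. Consequently it is in `NP` if and only if `NP = PSPACE`, and it
is in `P` if and only if `P = PSPACE`. -/
theorem result :
    Pool.Agent.H623R2.PS.PSPACEComplete (lang IsReset) ∧
      (InNP (lang IsReset) ↔ ∀ L : Set (List Bool), InPSPACE L → InNP L) ∧
      (InP (lang IsReset) ↔ ∀ L : Set (List Bool), InPSPACE L → InP L) :=
  ⟨⟨mem, hard⟩,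
    ⟨fun h L hL => Pool.Agent.H622R2.InNP.of_reduces (hard L hL) h, fun h => h _ mem⟩,
    ⟨fun h L hL => InP.of_reduces (hard L hL) h, fun h => h _ mem⟩⟩

end Pool.Agent.Results.MP_5adc07_lc.PSPACEComplete
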